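import Pool.Agent.H43.TS.Defs
import Pool.Agent.H31.EQ.Defs
import Pool.Agent.H91.TQ.Defs

/-!
# PROJECT TPQ (MP_967f73_nt): two primes `n - x`, `n + x` with `|x| ≤ n^θ` for almost all `n`, `2/9 ≤ θ < 1/3`: definitions and interface

`L = log N`, `H = Hn θ N = ⌊N^θ⌋`, `R = Rn B N = ⌊L^B⌋`, `y = yN e1 N = ⌊N^e1⌋`, `z = zz y J = 2^J y`, `z1 = zz y J1`, `LevQ`: `N^(111/500) ≤ z ≤ N^(2221/10000)`, `N^(3053/10000) ≤ z1 ≤ N^(1527/5000)`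
(`2221/10000 < 2/9 ≤ θ`, `1527/5000 < 11/36 ≤ (1+θ)/4`, `5 · 111/500 > 1`).

Exact functions, `0` unless `m` is `z`-rough: `ρ = rg z`, `om ρ` (`om = om y J J1 m = #{p ∣ m : z < p ≤ z1} ≤ 4`), `ee0 = (om - 1)_+ ρ`, `gg0 = (om² - 1)/(2 om) ρ` (`0` for `om = 0`), `F = (1 - om) ρ`.
Certificate (`Star.lean`), for all `u, v`:  `1_P 1_P' ≥ 1_P F' + F 1_P' - F F' - e ρ' - ρ e' + g (om ρ)' + (om ρ) g'`.
LFU functions: `R0 = Ap S y J`, `R1 = om T - ∑_j Fp (om bf)`, `DD = S - T + sqp y J1 ≥ 0`: `0 ≤ R0 - ρ ≤ DD`, `|R1 - om ρ| ≤ 4 DD` (`Cert.lean`), so the certificate holds for them with the loss `30 (R0 D' + D R0' + D D')`, that is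
`∑_{j<3} (X_j(u) Y_j(v) + Y_j(u) X_j(v)) ≤ 1_P 1_P'`, `X = (R0, R1, DD)`, `Y1 = pr - R0/2 - ee0 + R1 - 30 DD`, `Y2 = -pr - R1/2 + gg0`, `Y3 = -15 DD`.

* `LIN`: the LFU black box (helper91); densities `k0 = kapA`, `k1 = 2 (kapA - kapF)`, `kD = kS - kT`;
* WD functions `pr, ee0, gg0` (`H43/TS/Pr.lean`, `H31/EQ`), densities `gp = 1/log x`, `gE = gam ee0 H1 x`, `gG = gam gg0 H1 x`, `H1 = ⌊N/L^A1⌋`;
* `MM` = the main term, `mass7` (helper9): `MM ≥ (1/100)/L²`;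
* `CertFin.lean`: `CERT θ (1/100) 3`; then `cert_res` (`H43/TS/Fin.lean`).
-/

set_option autoImplicit false

namespace Pool.Agent.H46.TPQ

open Finset
open Pool.Agent.H91.PK (ee)
open Pool.Agent.H91.EHA (Lam lamR)
open Pool.Agent.H43.MP (blk Hn idx Rn)
open Pool.Agent.H43.TP (badF pr)
open Pool.Agent.H35.W (pb)
open Pool.Agent.H53.MID (Fp)
open Pool.Agent.H76.TP (yN zz rg bf kap kapA Ap Z2 Z3 PY)
open Pool.Agent.H91.TQ (om bq kapF Fq sqp Lev g3)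
open Pool.Agent.H31.EQ (gam)

/-- the levels -/
def LevQ (N y J J1 : ℕ) : Prop := Lev (111 / 500) (2221 / 10000) (3053 / 10000) (1527 / 5000) N y J J1

/-- `R1 = om T - ∑_{j<J} Fp (om bf) (2^j y)`, the approximation of `om ρ` -/
noncomputable def R1 (S T : ℕ → ℝ) (y J J1 m : ℕ) : ℝ := 2 * (Ap S y J m - Fq S T y J J1 m + sqp y J m)

/-- the density of `R1` -/
noncomputable def k1 (kS kT : ℝ) (y J J1 x : ℕ) : ℝ := 2 * (kapA kS y J x - kapF kS kT y J J1 x)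

/-- the error function -/
noncomputable def DD (S T : ℕ → ℝ) (y J1 m : ℕ) : ℝ := S m - T m + sqp y J1 m

/-- `(k - 1)_+` -/
noncomputable def e0 (k : ℕ) : ℝ := if k = 0 then 0 else (k : ℝ) - 1

/-- `(k² - 1)/(2k)`, `0` for `k = 0` -/
noncomputable def g0 (k : ℕ) : ℝ := if k = 0 then 0 else ((k : ℝ) ^ 2 - 1) / (2 * k)

/-- `e` -/
noncomputable def ee0 (y J J1 m : ℕ) : ℝ := rg (zz y J) m * e0 (om y J J1 m)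

/-- `g` -/
noncomputable def gg0 (y J J1 m : ℕ) : ℝ := rg (zz y J) m * g0 (om y J J1 m)

/-- the sieve pair: lower bound `T ≤ rg y ≤ S`, densities `kT, kS` with a relative error `ε/L` -/
def SvI (N y : ℕ) (ε : ℝ) (S T : ℕ → ℝ) (kS kT : ℝ) : Prop :=
  (∀ m, 1 ≤ m → T m ≤ rg y m ∧ rg y m ≤ S m) ∧ |kS| ≤ 1 ∧ |kT| ≤ 1 ∧ kT ≤ kS ∧
  ∀ x l : ℕ, 1 ≤ x → x ≤ 16 * N → (N : ℝ) ^ (1 / 4 : ℝ) ≤ l →
    |kS * l - ∑ m ∈ Ioc x (x + l), rg y m| ≤ ε * l / Real.log N ∧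
    |kT * l - ∑ m ∈ Ioc x (x + l), rg y m| ≤ ε * l / Real.log N

/-- the LFU black box (helper91) -/
def LIN (θ : ℝ) : Prop := ∀ ε : ℝ, 0 < ε → ∃ e1 : ℝ, 0 < e1 ∧ e1 ≤ 1 / 100 ∧ ∃ C : ℕ, ∀ A : ℕ, ∃ B N0 : ℕ, ∀ N : ℕ, N0 ≤ N →
  ∃ (J J1 : ℕ) (S T : ℕ → ℝ) (kS kT : ℝ), LevQ N (yN e1 N) J J1 ∧ SvI N (yN e1 N) ε S T kS kT ∧
    (∀ i ∈ idx N (Hn θ N),
      ∑ m ∈ blk (Hn θ N) i, Ap S (yN e1 N) J m ^ 2 ≤ Hn θ N * Real.log N ^ C ∧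
      ∑ m ∈ blk (Hn θ N) i, R1 S T (yN e1 N) J J1 m ^ 2 ≤ Hn θ N * Real.log N ^ C ∧
      ∑ m ∈ blk (Hn θ N) i, DD S T (yN e1 N) J1 m ^ 2 ≤ Hn θ N * Real.log N ^ C) ∧
    (∀ i ∈ idx N (Hn θ N), i + 1 ∈ idx N (Hn θ N) →
      |kapA kS (yN e1 N) J (i * Hn θ N) - kapA kS (yN e1 N) J ((i + 1) * Hn θ N)| ≤ 1 / Real.log N ^ A ∧
      |k1 kS kT (yN e1 N) J J1 (i * Hn θ N) - k1 kS kT (yN e1 N) J J1 ((i + 1) * Hn θ N)| ≤ 1 / Real.log N ^ A) ∧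
    ((badF N (Hn θ N) (Rn B N) A (Ap S (yN e1 N) J) (fun i => kapA kS (yN e1 N) J (i * Hn θ N))).card : ℝ) ≤
      (N : ℝ) / (Hn θ N) / Real.log N ^ A ∧
    ((badF N (Hn θ N) (Rn B N) A (R1 S T (yN e1 N) J J1) (fun i => k1 kS kT (yN e1 N) J J1 (i * Hn θ N))).card : ℝ) ≤
      (N : ℝ) / (Hn θ N) / Real.log N ^ A ∧
    ((badF N (Hn θ N) (Rn B N) A (DD S T (yN e1 N) J1) (fun _ => kS - kT)).card : ℝ) ≤
      (N : ℝ) / (Hn θ N) / Real.log N ^ A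

/-- the main term of the certificate -/
noncomputable def MM (gp gE gG k0 k1 kD : ℝ) : ℝ :=
  2 * gp * (k0 - k1) - (k0 - k1) ^ 2 - 2 * gE * k0 + 2 * gG * k1 - 60 * k0 * kD - 30 * kD ^ 2

/-- integrand of the numbers `p q r`, `z < p < q ≤ z1 < r` -/
noncomputable def hh (κ u : ℝ) : ℝ := Real.log (κ * (1 - 2 * u) / (u * (1 - u - κ))) / (u * (1 - u))

/-- the mass condition (helper9) -/
def MASS7 : Prop := ∀ (e1 : ℝ) (A1 : ℕ), 0 < e1 → e1 ≤ 1 / 100 → 10 ≤ A1 → ∃ N0 : ℕ, ∀ N : ℕ, N0 ≤ N →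
  ∀ (J J1 : ℕ) (S T : ℕ → ℝ) (kS kT : ℝ), LevQ N (yN e1 N) J J1 → SvI N (yN e1 N) (1 / 10 ^ 7) S T kS kT →
    ∀ x : ℕ, N ≤ 4 * x → x ≤ 4 * N →
      |kapA kS (yN e1 N) J x| ≤ 1 ∧ |k1 kS kT (yN e1 N) J J1 x| ≤ 1 ∧
      1 / 100 / Real.log N ^ 2 ≤ MM (1 / Real.log x)
        (gam (ee0 (yN e1 N) J J1) ⌊(N : ℝ) / Real.log N ^ A1⌋₊ x) (gam (gg0 (yN e1 N) J J1) ⌊(N : ℝ) / Real.log N ^ A1⌋₊ x)
        (kapA kS (yN e1 N) J x) (k1 kS kT (yN e1 N) J J1 x) (kS - kT)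

end Pool.Agent.H46.TPQ
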