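import Pool.Agent.H46.TPQ.Cert
import Pool.Agent.H43.TS.Mp

/-!
# TPQ BadLin: `badM` of linear combinations, monotonicity of `badF`
-/

set_option autoImplicit false

namespace Pool.Agent.H46.TPQ

open Finset
open Pool.Agent.H91.PK (ee)
open Pool.Agent.H91.EHA (Lam lamR)
open Pool.Agent.H43.MP (blk Hn idx Rn)
open Pool.Agent.H43.TP (rf badF pr)
open Pool.Agent.H43.TS (badM)
open Pool.Agent.H76.GB (SR)

theorem rf_sum_right {ι : Type} (s : Finset ι) (H i n : ℕ) (f : ℕ → ℝ) (c : ι → ℝ) (G : ι → ℕ → ℝ) :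
    rf H i f (fun m => ∑ j ∈ s, c j * G j m) n = ∑ j ∈ s, c j * rf H i f (G j) n := by
  unfold rf
  simp_rw [mul_sum]
  rw [sum_comm]
  refine sum_congr rfl fun j _ => sum_congr rfl fun u _ => ?_
  ring

theorem rf_sum_left {ι : Type} (s : Finset ι) (H i n : ℕ) (f : ℕ → ℝ) (c : ι → ℝ) (G : ι → ℕ → ℝ) :
    rf H i (fun m => ∑ j ∈ s, c j * G j m) f n = ∑ j ∈ s, c j * rf H i (G j) f n := by
  unfold rf
  simp_rw [sum_mul, mul_sum]
  rw [sum_comm]
  refine sum_congr rfl fun j _ => sum_congr rfl fun u _ => ?_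
  ring

private theorem BadLin_sum {ι : Type} (s : Finset ι) (c a g : ι → ℝ) (M T L : ℝ) (hL : 0 < L)
    (hc : ∑ j ∈ s, |c j| ≤ L) (h : ∀ j ∈ s, |a j - g j * M| ≤ T / L) (hT : 0 ≤ T) :
    |∑ j ∈ s, c j * a j - (∑ j ∈ s, c j * g j) * M| ≤ T := by
  have e1 : ∑ j ∈ s, c j * a j - (∑ j ∈ s, c j * g j) * M = ∑ j ∈ s, c j * (a j - g j * M) := by
    rw [sum_mul, ← sum_sub_distrib]
    refine sum_congr rfl fun j _ => ?_
    ring
  rw [e1]
  calc |∑ j ∈ s, c j * (a j - g j * M)| ≤ ∑ j ∈ s, |c j * (a j - g j * M)| := abs_sum_le_sum_abs _ _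
    _ ≤ ∑ j ∈ s, |c j| * (T / L) := sum_le_sum fun j hj => by
        rw [abs_mul]
        exact mul_le_mul_of_nonneg_left (h j hj) (abs_nonneg _)
    _ = (∑ j ∈ s, |c j|) * (T / L) := by rw [sum_mul]
    _ ≤ L * (T / L) := mul_le_mul_of_nonneg_right hc (by positivity)
    _ = T := by field_simp

/-- a linear combination is bad only where one of the functions is bad -/
theorem badM_sum {ι : Type} [DecidableEq ι] (s : Finset ι) (N H R D : ℕ) (c : ι → ℝ) (G g : ι → ℕ → ℝ)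
    (hL : 0 < Real.log N) (hc : ∑ j ∈ s, |c j| ≤ Real.log N) :
    badM N H R D (fun m => ∑ j ∈ s, c j * G j m) (fun i => ∑ j ∈ s, c j * g j i) ⊆
      s.biUnion (fun j => badM N H R (D + 1) (G j) (g j)) := by
  classical
  intro n hn
  by_contra hcon
  rw [mem_biUnion] at hcon
  push Not at hcon
  unfold badM at hn hcon
  simp only [mem_filter] at hn
  obtain ⟨hn1, hn2⟩ := hn
  have h1 : ∀ j ∈ s, |rf H (n / H) (lamR R) (G j) n - g j (n / H) * (H * SR R (2 * n))| ≤ (H / Real.log N ^ D) / Real.log N ∧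
      |rf H (n / H) (G j) (lamR R) n - g j (n / H) * (H * SR R (2 * n))| ≤ (H / Real.log N ^ D) / Real.log N := by
    intro j hj
    have h2 := hcon j hj
    simp only [mem_filter, not_and, not_or, not_lt] at h2
    have h3 := h2 hn1
    rw [div_div, ← pow_succ]
    exact h3
  have hT : 0 ≤ (H : ℝ) / Real.log N ^ D := by positivity
  have a1 := BadLin_sum s c _ (fun j => g j (n / H)) (H * SR R (2 * n)) _ _ hL hc (fun j hj => (h1 j hj).1) hT
  have a2 := BadLin_sum s c _ (fun j => g j (n / H)) (H * SR R (2 * n)) _ _ hL hc (fun j hj => (h1 j hj).2) hT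
  rw [← rf_sum_right] at a1
  rw [← rf_sum_left] at a2
  rcases hn2 with h | h
  · exact absurd a1 (not_le.2 h)
  · exact absurd a2 (not_le.2 h)

/-- `badF` grows with the exponent -/
theorem badF_mono {N H R A A' : ℕ} {X k : ℕ → ℝ} (hL : 1 ≤ Real.log N) (h : A ≤ A') :
    badF N H R A X k ⊆ badF N H R A' X k := by
  intro i hi
  unfold badF at hi ⊢
  simp only [mem_filter] at hi ⊢
  obtain ⟨hi1, α, hα⟩ := hi
  refine ⟨hi1, α, lt_of_le_of_lt ?_ hα⟩
  exact div_le_div_of_nonneg_left (Nat.cast_nonneg _) (by positivity) (pow_le_pow_right₀ hL h)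

end Pool.Agent.H46.TPQ
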