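import Pool.Agent.H46.TPQ.Star
import Pool.Agent.H91.TQ.Ram

/-!
# TPQ Cert: the certificate for the functions `R0 = Ap S`, `R1`, `DD`, `ee0`, `gg0`, `pr`
-/

set_option autoImplicit false

namespace Pool.Agent.H46.TPQ

open Finset
open Pool.Agent.H43.TP (pr)
open Pool.Agent.H76.TP (yN zz rg bf kap kapA Ap AA Z2 Z3 PY aa_nonneg aa_one aa_le)
open Pool.Agent.H91.TQ (om bq kapF Fq sqp Lev g3 fq_eq)

/-- more than `t` primes above `z` need `m ≥ z^(t+1)` -/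
theorem om_pow (y J J1 m : ℕ) (hm : 1 ≤ m) : zz y J ^ om y J J1 m ≤ m := by
  have h1 : ∏ p ∈ m.primeFactors.filter (fun p => zz y J < p ∧ p ≤ zz y J1), p ∣ m :=
    (Finset.prod_dvd_prod_of_subset _ _ _ (filter_subset _ _)).trans (Nat.prod_primeFactors_dvd m)
  refine le_trans ?_ (Nat.le_of_dvd hm h1)
  unfold om
  rw [← Finset.prod_const]
  exact Finset.prod_le_prod' fun p hp => (mem_filter.1 hp).2.1.le

/-- large `N` -/
theorem cert_large : ∃ N0 : ℕ, ∀ N : ℕ, N0 ≤ N → 1 ≤ N ∧ (17 : ℝ) * N ≤ ((N : ℝ) ^ (111 / 500 : ℝ)) ^ 5 ∧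
    17 * (N : ℝ) ^ (1527 / 5000 : ℝ) ≤ N := by
  have e1 : ∀ᶠ N : ℕ in Filter.atTop, (17 : ℝ) ≤ (N : ℝ) ^ (11 / 100 : ℝ) :=
    ((tendsto_rpow_atTop (by norm_num)).comp (tendsto_natCast_atTop_atTop (R := ℝ))).eventually_ge_atTop _
  have e2 : ∀ᶠ N : ℕ in Filter.atTop, (17 : ℝ) ≤ (N : ℝ) ^ (3473 / 5000 : ℝ) :=
    ((tendsto_rpow_atTop (by norm_num)).comp (tendsto_natCast_atTop_atTop (R := ℝ))).eventually_ge_atTop _
  obtain ⟨N0, hN0⟩ := Filter.eventually_atTop.1 ((e1.and e2).and (Filter.eventually_ge_atTop 1))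
  refine ⟨N0, fun N hN => ?_⟩
  obtain ⟨⟨g1, g2⟩, g3⟩ := hN0 N hN
  have hN : (0 : ℝ) < N := by exact_mod_cast g3
  refine ⟨g3, ?_, ?_⟩
  · have h2 : ((N : ℝ) ^ (111 / 500 : ℝ)) ^ 5 = (N : ℝ) ^ (11 / 100 : ℝ) * N := by
      rw [← Real.rpow_natCast, ← Real.rpow_mul hN.le]
      conv_rhs => rw [← Real.rpow_one (N : ℝ)]
      rw [← Real.rpow_mul hN.le, ← Real.rpow_add hN]
      congr 1
      norm_num
    rw [h2]
    exact mul_le_mul_of_nonneg_right g1 hN.le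
  · have h2 : (N : ℝ) ^ (3473 / 5000 : ℝ) * (N : ℝ) ^ (1527 / 5000 : ℝ) = N := by
      rw [← Real.rpow_add hN]
      norm_num
    calc 17 * (N : ℝ) ^ (1527 / 5000 : ℝ) ≤ (N : ℝ) ^ (3473 / 5000 : ℝ) * (N : ℝ) ^ (1527 / 5000 : ℝ) :=
          mul_le_mul_of_nonneg_right g2 (by positivity)
      _ = N := h2

/-- `om ≤ 4` -/
theorem om_le4 {N y J J1 m : ℕ} (hN : 1 ≤ N) (hN5 : (17 : ℝ) * N ≤ ((N : ℝ) ^ (111 / 500 : ℝ)) ^ 5)
    (hL : LevQ N y J J1) (hm : 1 ≤ m) (hm2 : m ≤ 16 * N) : om y J J1 m ≤ 4 := by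
  by_contra hcon
  have h1 := om_pow y J J1 m hm
  have hNr : (0 : ℝ) < N := by exact_mod_cast hN
  have hp : (0 : ℝ) < (N : ℝ) ^ (111 / 500 : ℝ) := by positivity
  have hz := hL.2.1
  have hz0 : (0 : ℝ) < zz y J := lt_of_lt_of_le hp hz
  have hz1 : 1 ≤ zz y J := by exact_mod_cast hz0
  have h2 : zz y J ^ 5 ≤ m := (Nat.pow_le_pow_right hz1 (by omega)).trans h1
  have h3 : (zz y J : ℝ) ^ 5 ≤ m := by exact_mod_cast h2
  have h4 : ((N : ℝ) ^ (111 / 500 : ℝ)) ^ 5 ≤ (zz y J : ℝ) ^ 5 := pow_le_pow_left₀ hp.le hz 5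
  have h5 : (m : ℝ) ≤ 16 * N := by exact_mod_cast hm2
  linarith

theorem rg_zero_or_one (y m : ℕ) : rg y m = 0 ∨ rg y m = 1 := by
  unfold rg
  split_ifs
  · right; rfl
  · left; rfl

/-- the type of a number of the range -/
theorem typ_of {N y J J1 m : ℕ} (hN : 1 ≤ N) (hN1 : 17 * (N : ℝ) ^ (1527 / 5000 : ℝ) ≤ N)
    (hL : LevQ N y J J1) (hm : N ≤ 16 * m) : Typ (pr m) (rg (zz y J) m) (om y J J1 m) := by
  unfold pr
  split_ifs with hp
  · right
    right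
    have hNr : (0 : ℝ) < N := by exact_mod_cast hN
    have hz1 : zz y J1 < m := by
      have h1 : (zz y J1 : ℝ) ≤ (N : ℝ) ^ (1527 / 5000 : ℝ) := hL.2.2.2.2
      have h2 : (N : ℝ) ≤ 16 * m := by exact_mod_cast hm
      have h3 : (0 : ℝ) < (N : ℝ) ^ (1527 / 5000 : ℝ) := by positivity
      have h4 : (zz y J1 : ℝ) < m := by linarith
      exact_mod_cast h4
    have hzz : zz y J ≤ zz y J1 := by
      unfold zz
      exact Nat.mul_le_mul_right _ (Nat.pow_le_pow_right (by norm_num) hL.1)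
    refine ⟨rfl, ?_, ?_⟩
    · unfold rg
      rw [if_pos]
      intro q hq hqm
      rw [(Nat.prime_dvd_prime_iff_eq hq hp).1 hqm]
      omega
    · unfold om
      rw [Finset.card_eq_zero, Finset.filter_eq_empty_iff]
      intro q hq
      rw [Nat.Prime.primeFactors hp, mem_singleton] at hq
      omega
  · rcases rg_zero_or_one (zz y J) m with h | h
    · left
      exact ⟨rfl, h⟩
    · right
      left
      exact ⟨rfl, h⟩

theorem sqp_mono {y J J1 m : ℕ} (h : J ≤ J1) : sqp y J m ≤ sqp y J1 m := by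
  unfold sqp
  have hzz : zz y J ≤ zz y J1 := by
    unfold zz
    exact Nat.mul_le_mul_right _ (Nat.pow_le_pow_right (by norm_num) h)
  have : (PY y (zz y J)).filter (fun p => p ^ 2 ∣ m) ⊆ (PY y (zz y J1)).filter (fun p => p ^ 2 ∣ m) := by
    intro p hp
    rw [mem_filter] at hp ⊢
    unfold PY at hp ⊢
    rw [mem_filter, mem_Ioc] at hp ⊢
    exact ⟨⟨⟨hp.1.1.1, hp.1.1.2.trans hzz⟩, hp.1.2⟩, hp.2⟩
  exact_mod_cast card_le_card this

/-- `R1 = om (AA - (rg - T))` -/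
theorem r1_eq (S T : ℕ → ℝ) (y J J1 m : ℕ) (hm : 1 ≤ m) :
    R1 S T y J J1 m = om y J J1 m * (AA y J m - (rg y m - T m)) := by
  unfold R1
  rw [fq_eq S T y J J1 m hm]
  have h1 : Ap S y J m = (S m - rg y m) + AA y J m := by
    unfold Ap AA
    ring
  rw [h1]
  ring

/-- the bounds of the LFU functions -/
theorem appr {S T : ℕ → ℝ} {y J J1 m : ℕ} (hJ : J ≤ J1) (hm : 1 ≤ m) (h4 : om y J J1 m ≤ 4)
    (hT : T m ≤ rg y m) (hS : rg y m ≤ S m) :
    rg (zz y J) m ≤ Ap S y J m ∧ Ap S y J m ≤ rg (zz y J) m + DD S T y J1 m ∧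
      |R1 S T y J J1 m - om y J J1 m * rg (zz y J) m| ≤ 4 * DD S T y J1 m := by
  have h1 : Ap S y J m = (S m - rg y m) + AA y J m := by
    unfold Ap AA
    ring
  have hq := sqp_mono (y := y) (m := m) hJ
  have a1 : rg (zz y J) m ≤ AA y J m := by
    by_cases h : ∀ p : ℕ, p.Prime → p ∣ m → zz y J < p
    · rw [aa_one y J m hm h]
      rcases rg_zero_or_one (zz y J) m with h | h <;> rw [h]
      norm_num
    · have : rg (zz y J) m = 0 := by
        unfold rg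
        rw [if_neg h]
      rw [this]
      exact aa_nonneg y J m hm
  have a2 : AA y J m ≤ rg (zz y J) m + sqp y J m := aa_le y J m hm
  have a3 : 0 ≤ DD S T y J1 m - (S m - T m) := by
    unfold DD
    have : (0 : ℝ) ≤ sqp y J1 m := by
      unfold sqp
      positivity
    linarith
  have a4 : DD S T y J1 m = S m - T m + sqp y J1 m := rfl
  refine ⟨by rw [h1]; linarith, by rw [h1]; linarith, ?_⟩
  rw [r1_eq S T y J J1 m hm]
  have e1 : (om y J J1 m : ℝ) * (AA y J m - (rg y m - T m)) - om y J J1 m * rg (zz y J) m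
      = om y J J1 m * ((AA y J m - rg (zz y J) m) - (rg y m - T m)) := by ring
  rw [e1, abs_mul, Nat.abs_cast]
  refine mul_le_mul (by exact_mod_cast h4) ?_ (abs_nonneg _) (by norm_num)
  rw [abs_le]
  constructor <;> linarith

/-- the certificate -/
theorem cert_pt : ∃ N0 : ℕ, ∀ N : ℕ, N0 ≤ N → ∀ (y J J1 : ℕ) (S T : ℕ → ℝ), LevQ N y J J1 →
    (∀ m, 1 ≤ m → T m ≤ rg y m ∧ rg y m ≤ S m) →
    ∀ u v : ℕ, N ≤ 4 * u → u ≤ 4 * N → N ≤ 4 * v → v ≤ 4 * N →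
      pr u * (Ap S y J v - R1 S T y J J1 v) + (Ap S y J u - R1 S T y J J1 u) * pr v
        - (Ap S y J u - R1 S T y J J1 u) * (Ap S y J v - R1 S T y J J1 v)
        - ee0 y J J1 u * Ap S y J v - Ap S y J u * ee0 y J J1 v
        + gg0 y J J1 u * R1 S T y J J1 v + R1 S T y J J1 u * gg0 y J J1 v
        - 30 * (Ap S y J u * DD S T y J1 v + DD S T y J1 u * Ap S y J v + DD S T y J1 u * DD S T y J1 v)
        ≤ pr u * pr v := by
  obtain ⟨N0, hN0⟩ := cert_large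
  refine ⟨N0, fun N hN y J J1 S T hL hST u v hu1 hu2 hv1 hv2 => ?_⟩
  obtain ⟨g1, g2, g3⟩ := hN0 N hN
  have hu : 1 ≤ u := by omega
  have hv : 1 ≤ v := by omega
  have ou := om_le4 g1 g2 hL hu (by omega)
  have ov := om_le4 g1 g2 hL hv (by omega)
  obtain ⟨a1, a2, a3⟩ := appr (S := S) (T := T) hL.1 hu ou (hST u hu).1 (hST u hu).2
  obtain ⟨b1, b2, b3⟩ := appr (S := S) (T := T) hL.1 hv ov (hST v hv).1 (hST v hv).2
  exact star_rob (pr u) (rg (zz y J) u) (pr v) (rg (zz y J) v) (om y J J1 u) (om y J J1 v)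
    (typ_of g1 g3 hL (by omega)) (typ_of g1 g3 hL (by omega)) ou ov _ _ _ _ _ _ a1 a2 a3 b1 b2 b3

end Pool.Agent.H46.TPQ
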