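import Pool.Agent.H46.TPQ.Defs

/-!
# PROJECT TPQ, second version (MP_967f73_nt): two primes `n - x`, `n + x` with `|x| ≤ n^θ` for almost all `n`, `5/24 ≤ θ ≤ 7/24`: definitions

As in `Defs.lean`, with the levels `LevR`: `N^(2082/10000) ≤ z ≤ N^(2083/10000)`, `N^(3540/10000) ≤ z1 ≤ N^(3541/10000)` (`2083/10000 < 5/24`, `3541/10000 < 1/4 + 5/48`, `5 · 2082/10000 > 1`), `om ≤ 4`, and the
certificate 2 (note 2386): with `y = 2 · 1_P - ρ + φY(om) ρ`, `z = -(4/3) 1_P + ρ/3 + φZ(om) ρ`, `φY(0..4) = 0, 1, 4/3, 1, 2/3`, `φZ(0..4) = 0, -1/3, -2/3, -1/3, -1/4`: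
`2 · 1_P 1_P' ≥ y ρ' + ρ y' + om ρ z' + z (om ρ)'` (`Star2.lean`).

Values `(y, z)`: primes `(1, -1)`; rough composite numbers with `om = 0, 1, 2, 3, 4`: `(-1, 1/3), (0, 0), (1/3, -1/3), (0, 0), (-1/3, 1/12)`.
Robust form: with `R0, R1, DD` in place of `ρ, om ρ` the loss is `8 (R0 D' + D R0') + 4 D D'`, that is `∑_{j<3} (X_j(u) Y_j(v) + Y_j(u) X_j(v)) ≤ 1_P 1_P'`, `X = (R0, R1, DD)`,
`Y1 = pr - R0/2 + yy0/2 - 4 DD`, `Y2 = -(2/3) pr + R0/6 + zz0/2`, `Y3 = -DD`, main term `MM2 = 2 ∑ k_j l_j`.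
-/

set_option autoImplicit false

namespace Pool.Agent.H46.TPQ

open Finset
open Pool.Agent.H91.PK (ee)
open Pool.Agent.H91.EHA (Lam lamR)
open Pool.Agent.H43.MP (blk Hn idx Rn)
open Pool.Agent.H43.TP (badF pr)
open Pool.Agent.H35.W (pb)
open Pool.Agent.H53.MID (Fp)
open Pool.Agent.H76.TP (yN zz rg bf kap kapA Ap Z2 Z3 PY)
open Pool.Agent.H91.TQ (om bq kapF Fq sqp Lev g3)
open Pool.Agent.H31.EQ (gam)

/-- the levels -/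
def LevR (N y J J1 : ℕ) : Prop := Lev (2082 / 10000) (2083 / 10000) (3540 / 10000) (3541 / 10000) N y J J1

/-- the table of `y` -/
noncomputable def fY (k : ℕ) : ℝ := if k = 1 then 1 else if k = 2 then 4 / 3 else if k = 3 then 1 else if k = 4 then 2 / 3 else 0

/-- the table of `z` -/
noncomputable def fZ (k : ℕ) : ℝ :=
  if k = 1 then -1 / 3 else if k = 2 then -2 / 3 else if k = 3 then -1 / 3 else if k = 4 then -1 / 4 else 0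

/-- `ρ φY(om)` -/
noncomputable def yy0 (y J J1 m : ℕ) : ℝ := rg (zz y J) m * fY (om y J J1 m)

/-- `ρ φZ(om)` -/
noncomputable def zz0 (y J J1 m : ℕ) : ℝ := rg (zz y J) m * fZ (om y J J1 m)

/-- the LFU black box with general levels (helper91: `LINg`) -/
def LINg (θ ζ' ζ κ' κ : ℝ) : Prop := ∀ ε : ℝ, 0 < ε → ∃ e1 : ℝ, 0 < e1 ∧ e1 ≤ 1 / 100 ∧ ∃ C : ℕ, ∀ A : ℕ, ∃ B N0 : ℕ, ∀ N : ℕ, N0 ≤ N →
  ∃ (J J1 : ℕ) (S T : ℕ → ℝ) (kS kT : ℝ), Lev ζ' ζ κ' κ N (yN e1 N) J J1 ∧ SvI N (yN e1 N) ε S T kS kT ∧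
    (∀ i ∈ idx N (Hn θ N),
      ∑ m ∈ blk (Hn θ N) i, Ap S (yN e1 N) J m ^ 2 ≤ Hn θ N * Real.log N ^ C ∧
      ∑ m ∈ blk (Hn θ N) i, R1 S T (yN e1 N) J J1 m ^ 2 ≤ Hn θ N * Real.log N ^ C ∧
      ∑ m ∈ blk (Hn θ N) i, DD S T (yN e1 N) J1 m ^ 2 ≤ Hn θ N * Real.log N ^ C) ∧
    (∀ i ∈ idx N (Hn θ N), i + 1 ∈ idx N (Hn θ N) →
      |kapA kS (yN e1 N) J (i * Hn θ N) - kapA kS (yN e1 N) J ((i + 1) * Hn θ N)| ≤ 1 / Real.log N ^ A ∧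
      |k1 kS kT (yN e1 N) J J1 (i * Hn θ N) - k1 kS kT (yN e1 N) J J1 ((i + 1) * Hn θ N)| ≤ 1 / Real.log N ^ A) ∧
    ((badF N (Hn θ N) (Rn B N) A (Ap S (yN e1 N) J) (fun i => kapA kS (yN e1 N) J (i * Hn θ N))).card : ℝ) ≤
      (N : ℝ) / (Hn θ N) / Real.log N ^ A ∧
    ((badF N (Hn θ N) (Rn B N) A (R1 S T (yN e1 N) J J1) (fun i => k1 kS kT (yN e1 N) J J1 (i * Hn θ N))).card : ℝ) ≤
      (N : ℝ) / (Hn θ N) / Real.log N ^ A ∧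
    ((badF N (Hn θ N) (Rn B N) A (DD S T (yN e1 N) J1) (fun _ => kS - kT)).card : ℝ) ≤
      (N : ℝ) / (Hn θ N) / Real.log N ^ A

/-- the main term of the certificate 2 -/
noncomputable def MM2 (gp gY gZ k0 k1 kD : ℝ) : ℝ :=
  k0 * (2 * gp - k0 + gY) + k1 * (-(4 / 3) * gp + k0 / 3 + gZ) - 8 * k0 * kD - 2 * kD ^ 2

/-- the mass condition of the second version (helper9) -/
def MASS8 : Prop := ∀ (e1 : ℝ) (A1 : ℕ), 0 < e1 → e1 ≤ 1 / 100 → 10 ≤ A1 → ∃ N0 : ℕ, ∀ N : ℕ, N0 ≤ N →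
  ∀ (J J1 : ℕ) (S T : ℕ → ℝ) (kS kT : ℝ), LevR N (yN e1 N) J J1 → SvI N (yN e1 N) (1 / 10 ^ 7) S T kS kT →
    ∀ x : ℕ, N ≤ 4 * x → x ≤ 4 * N →
      |kapA kS (yN e1 N) J x| ≤ 1 ∧ |k1 kS kT (yN e1 N) J J1 x| ≤ 1 ∧
      1 / 100 / Real.log N ^ 2 ≤ MM2 (1 / Real.log x)
        (gam (yy0 (yN e1 N) J J1) ⌊(N : ℝ) / Real.log N ^ A1⌋₊ x) (gam (zz0 (yN e1 N) J J1) ⌊(N : ℝ) / Real.log N ^ A1⌋₊ x)
        (kapA kS (yN e1 N) J x) (k1 kS kT (yN e1 N) J J1 x) (kS - kT)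

end Pool.Agent.H46.TPQ
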