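import Pool.Agent.H46.TPQ.Star
import Pool.Agent.H46.TPQ.Defs2

/-!
# TPQ Star2: the certificate 2, exact and robust form (real numbers)
-/

set_option autoImplicit false

namespace Pool.Agent.H46.TPQ

/-- the bound of `y` and `z` -/
private theorem Star2_bd {P s : ℝ} {k : ℕ} (h : Typ P s k) (hk : k ≤ 4) :
    |2 * P - s + s * fY k| ≤ s ∧ |-(4 / 3) * P + s / 3 + s * fZ k| ≤ s := by
  rcases h with ⟨rfl, rfl⟩ | ⟨rfl, rfl⟩ | ⟨rfl, rfl, rfl⟩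
  · norm_num
  · interval_cases k <;> norm_num [fY, fZ, abs_of_nonneg, abs_of_neg]
  · norm_num [fY, fZ, abs_of_nonneg, abs_of_neg]

/-- the exact certificate -/
theorem star2 (P s P' s' : ℝ) (k k' : ℕ) (h : Typ P s k) (h' : Typ P' s' k') (hk : k ≤ 4) (hk' : k' ≤ 4) :
    (2 * P - s + s * fY k) * s' + s * (2 * P' - s' + s' * fY k') + (k * s) * (-(4 / 3) * P' + s' / 3 + s' * fZ k')
      + (-(4 / 3) * P + s / 3 + s * fZ k) * (k' * s') ≤ 2 * (P * P') := by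
  rcases h with ⟨rfl, rfl⟩ | ⟨rfl, rfl⟩ | ⟨rfl, rfl, rfl⟩ <;>
    rcases h' with ⟨rfl, rfl⟩ | ⟨rfl, rfl⟩ | ⟨rfl, rfl, rfl⟩
  · norm_num
  · norm_num
  · norm_num
  · norm_num
  · interval_cases k <;> interval_cases k' <;> norm_num [fY, fZ]
  · interval_cases k <;> norm_num [fY, fZ]
  · norm_num
  · interval_cases k' <;> norm_num [fY, fZ]
  · norm_num [fY, fZ]

/-- the robust certificate -/
theorem star2_rob (P s P' s' : ℝ) (k k' : ℕ) (h : Typ P s k) (h' : Typ P' s' k') (hk : k ≤ 4) (hk' : k' ≤ 4)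
    (a o D a' o' D' : ℝ) (ha1 : s ≤ a) (ha2 : a ≤ s + D) (ho : |o - k * s| ≤ 4 * D)
    (ha1' : s' ≤ a') (ha2' : a' ≤ s' + D') (ho' : |o' - k' * s'| ≤ 4 * D') :
    (2 * P - a + s * fY k) * a' + a * (2 * P' - a' + s' * fY k') + o * (-(4 / 3) * P' + a' / 3 + s' * fZ k')
      + (-(4 / 3) * P + a / 3 + s * fZ k) * o' - 8 * (a * D' + D * a') - 4 * (D * D') ≤ 2 * (P * P') := by
  have h0 := star2 P s P' s' k k' h h' hk hk'
  obtain ⟨by1, bz1⟩ := Star2_bd h hk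
  obtain ⟨by2, bz2⟩ := Star2_bd h' hk'
  have hD : 0 ≤ D := by linarith
  have hD' : 0 ≤ D' := by linarith
  have hs : 0 ≤ s := by
    rcases h with ⟨rfl, rfl⟩ | ⟨rfl, rfl⟩ | ⟨rfl, rfl, rfl⟩ <;> norm_num
  have hs' : 0 ≤ s' := by
    rcases h' with ⟨rfl, rfl⟩ | ⟨rfl, rfl⟩ | ⟨rfl, rfl, rfl⟩ <;> norm_num
  have k4 : (k : ℝ) ≤ 4 := by exact_mod_cast hk
  have k4' : (k' : ℝ) ≤ 4 := by exact_mod_cast hk'
  have kr : (0 : ℝ) ≤ k := Nat.cast_nonneg k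
  have kr' : (0 : ℝ) ≤ k' := Nat.cast_nonneg k'
  obtain ⟨Y, hY⟩ : ∃ Y, Y = 2 * P - s + s * fY k := ⟨_, rfl⟩
  obtain ⟨Z, hZ⟩ : ∃ Z, Z = -(4 / 3) * P + s / 3 + s * fZ k := ⟨_, rfl⟩
  obtain ⟨Y', hY'⟩ : ∃ Y', Y' = 2 * P' - s' + s' * fY k' := ⟨_, rfl⟩
  obtain ⟨Z', hZ'⟩ : ∃ Z', Z' = -(4 / 3) * P' + s' / 3 + s' * fZ k' := ⟨_, rfl⟩
  obtain ⟨δ, hδ⟩ : ∃ δ, δ = a - s := ⟨_, rfl⟩
  obtain ⟨δ', hδ'⟩ : ∃ δ', δ' = a' - s' := ⟨_, rfl⟩
  obtain ⟨η, hη⟩ : ∃ η, η = o - k * s := ⟨_, rfl⟩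
  obtain ⟨η', hη'⟩ : ∃ η', η' = o' - k' * s' := ⟨_, rfl⟩
  rw [← hY] at by1
  rw [← hZ] at bz1
  rw [← hY'] at by2
  rw [← hZ'] at bz2
  rw [← hY, ← hY', ← hZ, ← hZ'] at h0
  rw [← hη] at ho
  rw [← hη'] at ho'
  have d0 : 0 ≤ δ := by linarith
  have d0' : 0 ≤ δ' := by linarith
  have d1 : δ ≤ D := by linarith
  have d1' : δ' ≤ D' := by linarith
  have e1 : 2 * P - a + s * fY k = Y - δ := by rw [hY, hδ]; ring
  have e2 : 2 * P' - a' + s' * fY k' = Y' - δ' := by rw [hY', hδ']; ring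
  have e3 : -(4 / 3) * P' + a' / 3 + s' * fZ k' = Z' + δ' / 3 := by rw [hZ', hδ']; ring
  have e4 : -(4 / 3) * P + a / 3 + s * fZ k = Z + δ / 3 := by rw [hZ, hδ]; ring
  have e5 : o = k * s + η := by rw [hη]; ring
  have e6 : o' = k' * s' + η' := by rw [hη']; ring
  have e7 : a = s + δ := by rw [hδ]; ring
  have e8 : a' = s' + δ' := by rw [hδ']; ring
  rw [e1, e2, e3, e4, e5, e6]
  -- the products
  have q : ∀ {x X t T : ℝ}, |x| ≤ X → |t| ≤ T → x * t ≤ X * T := by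
    intro x X t T hx ht
    have h1 : |x * t| ≤ X * T := by
      rw [abs_mul]
      exact mul_le_mul hx ht (abs_nonneg _) ((abs_nonneg _).trans hx)
    exact (le_abs_self _).trans h1
  have dd : |δ| ≤ D := by rw [abs_of_nonneg d0]; exact d1
  have dd' : |δ'| ≤ D' := by rw [abs_of_nonneg d0']; exact d1'
  have ks : |(k : ℝ) * s| ≤ 4 * s := by
    rw [abs_of_nonneg (mul_nonneg kr hs)]
    exact mul_le_mul_of_nonneg_right k4 hs
  have ks' : |(k' : ℝ) * s'| ≤ 4 * s' := by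
    rw [abs_of_nonneg (mul_nonneg kr' hs')]
    exact mul_le_mul_of_nonneg_right k4' hs'
  have p1 := q by1 dd'
  have p2 := q dd by2
  have p3 := q ks dd'
  have p4 := q ho bz2
  have p5 := q ho dd'
  have p6 := q bz1 ho'
  have p7 := q dd ks'
  have p8 := q dd ho'
  have n1 : 0 ≤ δ * s' := mul_nonneg d0 hs'
  have n2 : 0 ≤ δ * δ' := mul_nonneg d0 d0'
  have n3 : 0 ≤ s * δ' := mul_nonneg hs d0'
  have m1 : s * D' ≤ a * D' := mul_le_mul_of_nonneg_right ha1 hD'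
  have m2 : D * s' ≤ D * a' := mul_le_mul_of_nonneg_left ha1' hD
  have m3 : 0 ≤ D * D' := mul_nonneg hD hD'
  have m4 : 0 ≤ s * D' := mul_nonneg hs hD'
  have m5 : 0 ≤ D * s' := mul_nonneg hD hs'
  have e9 : (Y - δ) * a' + a * (Y' - δ') + (k * s + η) * (Z' + δ' / 3) + (Z + δ / 3) * (k' * s' + η') =
      (Y * s' + s * Y' + (k * s) * Z' + Z * (k' * s')) + Y * δ' + δ * Y' - δ * s' - 2 * (δ * δ') - s * δ'
      + (k * s) * δ' / 3 + η * Z' + η * δ' / 3 + Z * η' + δ * (k' * s') / 3 + δ * η' / 3 := by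
    rw [e7, e8]
    ring
  rw [e9]
  have e10 : a * D' = s * D' + δ * D' := by rw [e7]; ring
  linarith

end Pool.Agent.H46.TPQ
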