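import Pool.Agent.H46.TPQ.Cert
import Pool.Agent.H46.TPQ.Star2

/-!
# TPQ Cert2: the certificate 2 for the functions `R0 = Ap S`, `R1`, `DD`, `yy0`, `zz0`, `pr`
-/

set_option autoImplicit false

namespace Pool.Agent.H46.TPQ

open Finset
open Pool.Agent.H43.TP (pr)
open Pool.Agent.H76.TP (yN zz rg bf kap kapA Ap AA Z2 Z3 PY aa_nonneg aa_one aa_le)
open Pool.Agent.H91.TQ (om bq kapF Fq sqp Lev g3 fq_eq)

/-- large `N` -/
theorem cert_large2 : ∃ N0 : ℕ, ∀ N : ℕ, N0 ≤ N → 1 ≤ N ∧ (17 : ℝ) * N ≤ ((N : ℝ) ^ (2082 / 10000 : ℝ)) ^ 5 ∧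
    17 * (N : ℝ) ^ (3541 / 10000 : ℝ) ≤ N := by
  have e1 : ∀ᶠ N : ℕ in Filter.atTop, (17 : ℝ) ≤ (N : ℝ) ^ (41 / 1000 : ℝ) :=
    ((tendsto_rpow_atTop (by norm_num)).comp (tendsto_natCast_atTop_atTop (R := ℝ))).eventually_ge_atTop _
  have e2 : ∀ᶠ N : ℕ in Filter.atTop, (17 : ℝ) ≤ (N : ℝ) ^ (6459 / 10000 : ℝ) :=
    ((tendsto_rpow_atTop (by norm_num)).comp (tendsto_natCast_atTop_atTop (R := ℝ))).eventually_ge_atTop _
  obtain ⟨N0, hN0⟩ := Filter.eventually_atTop.1 ((e1.and e2).and (Filter.eventually_ge_atTop 1))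
  refine ⟨N0, fun N hN => ?_⟩
  obtain ⟨⟨g1, g2⟩, g3⟩ := hN0 N hN
  have hN : (0 : ℝ) < N := by exact_mod_cast g3
  refine ⟨g3, ?_, ?_⟩
  · have h2 : ((N : ℝ) ^ (2082 / 10000 : ℝ)) ^ 5 = (N : ℝ) ^ (41 / 1000 : ℝ) * N := by
      rw [← Real.rpow_natCast, ← Real.rpow_mul hN.le]
      conv_rhs => rw [← Real.rpow_one (N : ℝ)]
      rw [← Real.rpow_mul hN.le, ← Real.rpow_add hN]
      congr 1
      norm_num
    rw [h2]
    exact mul_le_mul_of_nonneg_right g1 hN.le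
  · have h2 : (N : ℝ) ^ (6459 / 10000 : ℝ) * (N : ℝ) ^ (3541 / 10000 : ℝ) = N := by
      rw [← Real.rpow_add hN]
      norm_num
    calc 17 * (N : ℝ) ^ (3541 / 10000 : ℝ) ≤ (N : ℝ) ^ (6459 / 10000 : ℝ) * (N : ℝ) ^ (3541 / 10000 : ℝ) :=
          mul_le_mul_of_nonneg_right g2 (by positivity)
      _ = N := h2

/-- `om ≤ 4` -/
theorem om_le4R {N y J J1 m : ℕ} (hN : 1 ≤ N) (hN5 : (17 : ℝ) * N ≤ ((N : ℝ) ^ (2082 / 10000 : ℝ)) ^ 5)
    (hL : LevR N y J J1) (hm : 1 ≤ m) (hm2 : m ≤ 16 * N) : om y J J1 m ≤ 4 := by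
  by_contra hcon
  have h1 := om_pow y J J1 m hm
  have hNr : (0 : ℝ) < N := by exact_mod_cast hN
  have hp : (0 : ℝ) < (N : ℝ) ^ (2082 / 10000 : ℝ) := by positivity
  have hz := hL.2.1
  have hz0 : (0 : ℝ) < zz y J := lt_of_lt_of_le hp hz
  have hz1 : 1 ≤ zz y J := by exact_mod_cast hz0
  have h2 : zz y J ^ 5 ≤ m := (Nat.pow_le_pow_right hz1 (by omega)).trans h1
  have h3 : (zz y J : ℝ) ^ 5 ≤ m := by exact_mod_cast h2
  have h4 : ((N : ℝ) ^ (2082 / 10000 : ℝ)) ^ 5 ≤ (zz y J : ℝ) ^ 5 := pow_le_pow_left₀ hp.le hz 5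
  have h5 : (m : ℝ) ≤ 16 * N := by exact_mod_cast hm2
  linarith

/-- the type of a number of the range -/
theorem typ_ofR {N y J J1 m : ℕ} (hN : 1 ≤ N) (hN1 : 17 * (N : ℝ) ^ (3541 / 10000 : ℝ) ≤ N)
    (hL : LevR N y J J1) (hm : N ≤ 16 * m) : Typ (pr m) (rg (zz y J) m) (om y J J1 m) := by
  unfold pr
  split_ifs with hp
  · right
    right
    have hNr : (0 : ℝ) < N := by exact_mod_cast hN
    have hz1 : zz y J1 < m := by
      have h1 : (zz y J1 : ℝ) ≤ (N : ℝ) ^ (3541 / 10000 : ℝ) := hL.2.2.2.2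
      have h2 : (N : ℝ) ≤ 16 * m := by exact_mod_cast hm
      have h3 : (0 : ℝ) < (N : ℝ) ^ (3541 / 10000 : ℝ) := by positivity
      have h4 : (zz y J1 : ℝ) < m := by linarith
      exact_mod_cast h4
    have hzz : zz y J ≤ zz y J1 := by
      unfold zz
      exact Nat.mul_le_mul_right _ (Nat.pow_le_pow_right (by norm_num) hL.1)
    refine ⟨rfl, ?_, ?_⟩
    · unfold rg
      rw [if_pos]
      intro q hq hqm
      rw [(Nat.prime_dvd_prime_iff_eq hq hp).1 hqm]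
      omega
    · unfold om
      rw [Finset.card_eq_zero, Finset.filter_eq_empty_iff]
      intro q hq
      rw [Nat.Prime.primeFactors hp, mem_singleton] at hq
      omega
  · rcases rg_zero_or_one (zz y J) m with h | h
    · left
      exact ⟨rfl, h⟩
    · right
      left
      exact ⟨rfl, h⟩

/-- the certificate 2 -/
theorem cert_pt2 : ∃ N0 : ℕ, ∀ N : ℕ, N0 ≤ N → ∀ (y J J1 : ℕ) (S T : ℕ → ℝ), LevR N y J J1 →
    (∀ m, 1 ≤ m → T m ≤ rg y m ∧ rg y m ≤ S m) →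
    ∀ u v : ℕ, N ≤ 4 * u → u ≤ 4 * N → N ≤ 4 * v → v ≤ 4 * N →
      (2 * pr u - Ap S y J u + yy0 y J J1 u) * Ap S y J v + Ap S y J u * (2 * pr v - Ap S y J v + yy0 y J J1 v)
        + R1 S T y J J1 u * (-(4 / 3) * pr v + Ap S y J v / 3 + zz0 y J J1 v)
        + (-(4 / 3) * pr u + Ap S y J u / 3 + zz0 y J J1 u) * R1 S T y J J1 v
        - 8 * (Ap S y J u * DD S T y J1 v + DD S T y J1 u * Ap S y J v) - 4 * (DD S T y J1 u * DD S T y J1 v)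
        ≤ 2 * (pr u * pr v) := by
  obtain ⟨N0, hN0⟩ := cert_large2
  refine ⟨N0, fun N hN y J J1 S T hL hST u v hu1 hu2 hv1 hv2 => ?_⟩
  obtain ⟨g1, g2, g3⟩ := hN0 N hN
  have hu : 1 ≤ u := by omega
  have hv : 1 ≤ v := by omega
  have ou := om_le4R g1 g2 hL hu (by omega)
  have ov := om_le4R g1 g2 hL hv (by omega)
  obtain ⟨a1, a2, a3⟩ := appr (S := S) (T := T) hL.1 hu ou (hST u hu).1 (hST u hu).2
  obtain ⟨b1, b2, b3⟩ := appr (S := S) (T := T) hL.1 hv ov (hST v hv).1 (hST v hv).2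
  exact star2_rob (pr u) (rg (zz y J) u) (pr v) (rg (zz y J) v) (om y J J1 u) (om y J J1 v)
    (typ_ofR g1 g3 hL (by omega)) (typ_ofR g1 g3 hL (by omega)) ou ov _ _ _ _ _ _ a1 a2 a3 b1 b2 b3

end Pool.Agent.H46.TPQ
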