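import Pool.Agent.H46.TPQ.BadLin
import Pool.Agent.H43.TS.Pr
import Pool.Agent.H43.TS.Fin

/-!
# TPQ CertFin: `CERT θ (1/100) 3` from the black boxes `LIN` (LFU), `EGM` (e, g), `HUX` (primes), `MASS7` (masses)
-/

set_option autoImplicit false

namespace Pool.Agent.H46.TPQ

open Finset
open Pool.Agent.H91.PK (ee)
open Pool.Agent.H91.EHA (Lam lamR)
open Pool.Agent.H43.MP (blk Hn idx Rn HUX)
open Pool.Agent.H43.TP (rf badF pr)
open Pool.Agent.H43.TS (badM CERT badM_lfu badM_pr)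
open Pool.Agent.H31.EQ (gam)
open Pool.Agent.H76.TP (yN zz rg bf kap kapA Ap AA Z2 Z3 PY)
open Pool.Agent.H91.TQ (om bq kapF Fq sqp Lev g3)

/-- the WD black box for the exact `e`, `g` (helper43, from helper31's `eq2`) -/
def EGM (θ : ℝ) : Prop := ∀ e1 : ℝ, 0 < e1 → e1 ≤ 1 / 100 → ∀ A B : ℕ, ∃ A0 : ℕ, ∀ A1 : ℕ, A0 ≤ A1 → ∃ N0 : ℕ, ∀ N : ℕ, N0 ≤ N →
  ∀ J J1 : ℕ, LevQ N (yN e1 N) J J1 →
    ((badM N (Hn θ N) (Rn B N) 4 (ee0 (yN e1 N) J J1)
      (fun i => gam (ee0 (yN e1 N) J J1) ⌊(N : ℝ) / Real.log N ^ A1⌋₊ (i * Hn θ N))).card : ℝ) ≤ (N : ℝ) / Real.log N ^ A ∧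
    ((badM N (Hn θ N) (Rn B N) 4 (gg0 (yN e1 N) J J1)
      (fun i => gam (gg0 (yN e1 N) J J1) ⌊(N : ℝ) / Real.log N ^ A1⌋₊ (i * Hn θ N))).card : ℝ) ≤ (N : ℝ) / Real.log N ^ A

/-- the coefficients of `Y1, Y2, Y3` in `pr, R0, ee0, R1, DD, gg0` -/
noncomputable def cY : Fin 3 → Fin 6 → ℝ :=
  ![![1, -(1 / 2), -1, 1, -30, 0], ![-1, 0, 0, -(1 / 2), 0, 1], ![0, 0, 0, 0, -15, 0]]

private theorem CertFin_abs (j : Fin 3) : ∑ a, |cY j a| ≤ 34 := by
  fin_cases j <;> simp [cY, Fin.sum_univ_six] <;> norm_num [abs_of_nonneg, abs_of_neg]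

private theorem CertFin_sq (j : Fin 3) : ∑ a, cY j a ^ 2 ≤ 1000 := by
  fin_cases j <;> simp [cY, Fin.sum_univ_six] <;> norm_num

private theorem CertFin_sm (s : Finset ℕ) (G : Fin 6 → ℕ → ℝ) (j : Fin 3) (K : ℝ)
    (h : ∀ a, ∑ m ∈ s, G a m ^ 2 ≤ K) : ∑ m ∈ s, (∑ a, cY j a * G a m) ^ 2 ≤ 6000 * K := by
  calc ∑ m ∈ s, (∑ a, cY j a * G a m) ^ 2 ≤ ∑ m ∈ s, 1000 * ∑ a, G a m ^ 2 := by
        refine sum_le_sum fun m _ => ?_
        refine (Finset.sum_mul_sq_le_sq_mul_sq univ (cY j) (fun a => G a m)).trans ?_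
        exact mul_le_mul_of_nonneg_right (CertFin_sq j) (sum_nonneg fun a _ => sq_nonneg _)
    _ = 1000 * ∑ a, ∑ m ∈ s, G a m ^ 2 := by rw [← mul_sum, sum_comm]
    _ ≤ 1000 * ∑ _a : Fin 6, K := mul_le_mul_of_nonneg_left (sum_le_sum fun a _ => h a) (by norm_num)
    _ = 6000 * K := by
        rw [sum_const, card_univ, Fintype.card_fin, nsmul_eq_mul]
        push_cast
        ring

theorem cert_fin (θ θ' : ℝ) (h0 : 0 < θ') (h01 : θ' < θ) (h1 : θ < 1 / 3) (hx : HUX θ') (hL : LIN θ) (hE : EGM θ)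
    (hM : MASS7) : CERT θ (1 / 100) 3 := by
  classical
  have h0θ : 0 < θ := h0.trans h01
  obtain ⟨e1, he1, he1', C, hL⟩ := hL (1 / 10 ^ 7) (by norm_num)
  refine ⟨C + 2, fun A => ?_⟩
  obtain ⟨B, N1, hL⟩ := hL (A + 20)
  obtain ⟨A0, hE⟩ := hE e1 he1 he1' (A + 1) B
  obtain ⟨N2, hE⟩ := hE (max A0 10) (le_max_left _ _)
  obtain ⟨N3, hM⟩ := hM e1 (max A0 10) he1 he1' (le_max_right _ _)
  obtain ⟨N4, hP⟩ := badM_pr θ θ' h0 h01 h1 hx (A + 1) B 4
  obtain ⟨N5, hC⟩ := cert_pt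
  obtain ⟨N6, hev⟩ := Pool.Agent.H43.TP.ev_large θ 1 h0θ h1 one_pos le_rfl B
  obtain ⟨N7, hlam⟩ := Pool.Agent.H43.TP.lamR_blk B
  obtain ⟨N8, hlog⟩ := Pool.Agent.H76.GB.log_pow_le θ 4 h0θ (by norm_num) (4 * B + 5)
  obtain ⟨N9, hlarge⟩ := cert_large
  refine ⟨B, max (max (max N1 N2) (max N3 N4)) (max (max N5 N6) (max (max N7 N8) N9)), fun N hN => ?_⟩
  simp only [max_le_iff] at hN
  obtain ⟨⟨⟨hn1, hn2⟩, hn3, hn4⟩, ⟨hn5, hn6⟩, ⟨hn7, hn8⟩, hn9⟩ := hN
  obtain ⟨J, J1, S, T, kS, kT, hLev, hSv, hsq, hst, hb0, hb1, hbD⟩ := hL N hn1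
  obtain ⟨hE1, hE2⟩ := hE N hn2 J J1 hLev
  replace hM := hM N hn3 J J1 S T kS kT hLev hSv
  replace hP := hP N hn4
  replace hC := hC N hn5 (yN e1 N) J J1 S T hLev hSv.1
  obtain ⟨f1, f2, f3, f4, f5, f6, f7, f8, -, -, -⟩ := hev N hn6
  replace hlam := hlam N hn7
  replace hlog := hlog N hn8
  obtain ⟨l1, l2, l3⟩ := hlarge N hn9
  rw [one_mul] at f1
  set L := Real.log N with hLdef
  set H := Hn θ N with hHdef
  set R := Rn B N with hRdef
  set y := yN e1 N with hy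
  set H1 := ⌊(N : ℝ) / L ^ (max A0 10)⌋₊ with hH1
  have hL0 : 0 < L := by linarith
  have hL1 : 1 ≤ L := by linarith
  have hNpos : (0 : ℝ) < N := by exact_mod_cast l1
  have hH0 : (0 : ℝ) < H := by exact_mod_cast f3
  -- the range of the blocks
  have hq4 : 8 ≤ N / H := by
    rw [Nat.le_div_iff_mul_le (by omega)]
    omega
  have hup : ∀ i ∈ idx N H, (i + 1) * H ≤ 4 * N := by
    intro i hi
    unfold idx at hi
    rw [mem_Icc] at hi
    have t1 : (i + 1) * H ≤ (3 * N / H + 1) * H := Nat.mul_le_mul_right _ (by omega)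
    have t2 : 3 * N / H * H ≤ 3 * N := Nat.div_mul_le_self _ _
    nlinarith
  have hlo : ∀ i ∈ idx N H, N ≤ 4 * (i * H) := by
    intro i hi
    unfold idx at hi
    rw [mem_Icc] at hi
    have t1 : N / (2 * H) * H ≤ i * H := Nat.mul_le_mul_right _ hi.1
    have t2 := Nat.lt_mul_div_succ N (show 0 < 2 * H by omega)
    have t3 : 2 * H * (N / (2 * H) + 1) = 2 * (N / (2 * H) * H) + 2 * H := by ring
    omega
  have hup' : ∀ i ∈ idx N H, i * H ≤ 4 * N := fun i hi =>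
    (Nat.mul_le_mul_right _ (by omega)).trans (hup i hi)
  have hi1 : ∀ i ∈ idx N H, 1 ≤ i := by
    intro i hi
    have := hlo i hi
    rcases Nat.eq_zero_or_pos i with h | h
    · rw [h] at this
      omega
    · exact h
  -- the families
  set G : Fin 6 → ℕ → ℝ := ![pr, Ap S y J, ee0 y J J1, R1 S T y J J1, DD S T y J1, gg0 y J J1] with hG
  set g : Fin 6 → ℕ → ℝ := ![fun i => 1 / Real.log ((i * H : ℕ) : ℝ), fun i => kapA kS y J (i * H),
    fun i => gam (ee0 y J J1) H1 (i * H), fun i => k1 kS kT y J J1 (i * H), fun _ => kS - kT,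
    fun i => gam (gg0 y J J1) H1 (i * H)] with hg
  -- `kS - kT`
  have hkD : |kS - kT| ≤ 1 := by
    obtain ⟨-, -, -, s4, s5⟩ := hSv
    have s6 := s5 1 N le_rfl (by omega) (by
      calc (N : ℝ) ^ (1 / 4 : ℝ) ≤ (N : ℝ) ^ (1 : ℝ) :=
            Real.rpow_le_rpow_of_exponent_le (by exact_mod_cast l1) (by norm_num)
        _ = N := Real.rpow_one _)
    have s7 := (abs_le.1 s6.1).2
    have s8 := (abs_le.1 s6.2).1
    rw [abs_of_nonneg (by linarith)]
    have s9 : (kS - kT) * N ≤ 2 * (1 / 10 ^ 7 * N / L) := by linarith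
    have s10 : 2 * (1 / 10 ^ 7 * N / L) ≤ 1 * (N : ℝ) := by
      rw [show 2 * (1 / 10 ^ 7 * (N : ℝ) / L) = (2 / 10 ^ 7 / L) * N by ring]
      refine mul_le_mul_of_nonneg_right ?_ hNpos.le
      rw [div_le_iff₀ hL0]
      norm_num
      linarith
    exact le_of_mul_le_mul_right (s9.trans s10) hNpos
  -- monotonicity of the bounds
  have hmono : (N : ℝ) / H / L ^ (A + 20) ≤ N / H / L ^ A :=
    div_le_div_of_nonneg_left (by positivity) (by positivity) (pow_le_pow_right₀ hL1 (by omega))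
  have hstm : 1 / L ^ (A + 20) ≤ 1 / L ^ A :=
    div_le_div_of_nonneg_left (by norm_num) (by positivity) (pow_le_pow_right₀ hL1 (by omega))
  have hR5 : 2 * (R : ℝ) ^ 4 ≤ H / L ^ (4 + 1) := by
    rw [le_div_iff₀ (by positivity)]
    have t1 : (R : ℝ) ^ 4 ≤ (L ^ B) ^ 4 := pow_le_pow_left₀ (Nat.cast_nonneg _) f8 4
    have t2 : (L ^ B) ^ 4 * L ^ (4 + 1) = L ^ (4 * B + 5) := by
      rw [← pow_mul, ← pow_add]
      congr 1
      ring
    calc 2 * (R : ℝ) ^ 4 * L ^ (4 + 1) ≤ 2 * ((L ^ B) ^ 4 * L ^ (4 + 1)) := by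
          have := mul_le_mul_of_nonneg_right t1 (show 0 ≤ L ^ (4 + 1) by positivity)
          linarith
      _ = 4 * L ^ (4 * B + 5) / 2 := by rw [t2]; ring
      _ ≤ (N : ℝ) ^ θ / 2 := by linarith
      _ ≤ H := f2
  -- the bad sets
  have hlam' : ∀ i ∈ idx N H, ∑ m ∈ blk H i, lamR R m ^ 2 ≤ H * L ^ 2 := fun i hi => hlam H i (hi1 i hi) f5
  have hk0 : ∀ i ∈ idx N H, |kapA kS y J (i * H)| ≤ 1 := fun i hi => (hM (i * H) (hlo i hi) (hup' i hi)).1
  have hk1 : ∀ i ∈ idx N H, |k1 kS kT y J J1 (i * H)| ≤ 1 := fun i hi => (hM (i * H) (hlo i hi) (hup' i hi)).2.1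
  have hbM : ∀ a : Fin 6, ((badM N H R 4 (G a) (g a)).card : ℝ) ≤ N / L ^ (A + 1) := by
    intro a
    fin_cases a
    · exact hP
    · exact badM_lfu (A' := A + 20) f1 f3 f4 (by omega) hR5 hk0 hlam' (fun i hi hi' => (hst i hi hi').1) hb0
    · exact hE1
    · exact badM_lfu (A' := A + 20) f1 f3 f4 (by omega) hR5 hk1 hlam' (fun i hi hi' => (hst i hi hi').2) hb1
    · exact badM_lfu (A' := A + 20) f1 f3 f4 (by omega) hR5 (fun i _ => hkD) hlam'
        (fun i _ _ => by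
          show |(kS - kT) - (kS - kT)| ≤ 1 / L ^ (A + 20)
          rw [sub_self, abs_zero]
          positivity) hbD
    · exact hE2
  refine ⟨![Ap S y J, R1 S T y J J1, DD S T y J1], fun j m => ∑ a, cY j a * G a m,
    ![fun i => kapA kS y J (i * H), fun i => k1 kS kT y J J1 (i * H), fun _ => kS - kT],
    fun j i => ∑ a, cY j a * g a i, ?_, ?_, ?_, ?_, ?_, ?_, ?_⟩
  · intro u v hu1 hu2 hv1 hv2
    have := hC u v hu1 hu2 hv1 hv2
    simp only [Fin.sum_univ_three, Fin.sum_univ_six, cY, hG]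
    simp only [Matrix.cons_val]
    linarith
  · intro j i hi
    fin_cases j
    · exact hk0 i hi
    · exact hk1 i hi
    · exact hkD
  · intro j i hi
    have hLC : 1 ≤ L ^ C := one_le_pow₀ hL1
    have hHC : (H : ℝ) ≤ H * L ^ C := le_mul_of_one_le_right hH0.le hLC
    have hr : ∀ m ∈ blk H i, 1 ≤ m ∧ m ≤ 16 * N := by
      intro m hm
      unfold blk at hm
      rw [mem_Ico] at hm
      have := hlo i hi
      have := hup i hi
      constructor <;> omega
    -- the second moments of the six functions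
    have hsm : ∀ a : Fin 6, ∑ m ∈ blk H i, G a m ^ 2 ≤ 9 * (H * L ^ C) := by
      intro a
      have bd : ∀ (f : ℕ → ℝ), (∀ m ∈ blk H i, |f m| ≤ 3) → ∑ m ∈ blk H i, f m ^ 2 ≤ 9 * (H * L ^ C) := by
        intro f hf
        have t1 : ∑ m ∈ blk H i, f m ^ 2 ≤ ∑ m ∈ blk H i, (9 : ℝ) := by
          refine sum_le_sum fun m hm => ?_
          have t2 := abs_le.1 (hf m hm)
          nlinarith
        rw [sum_const, Pool.Agent.H43.TP.blk_card, nsmul_eq_mul] at t1
        linarith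
      have hHC0 : 0 ≤ (H : ℝ) * L ^ C := by positivity
      fin_cases a
      · refine bd _ fun m _ => ?_
        show |pr m| ≤ 3
        unfold pr
        split_ifs <;> norm_num
      · exact (hsq i hi).1.trans (by linarith)
      · refine bd _ fun m hm => ?_
        show |ee0 y J J1 m| ≤ 3
        have t3 := om_le4 l1 l2 hLev (hr m hm).1 (hr m hm).2
        have t4 := e0_nonneg (om y J J1 m)
        have t5 := e0_le t3
        unfold ee0
        rcases rg_zero_or_one (zz y J) m with h | h <;> rw [h]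
        · norm_num
        · rw [one_mul, abs_of_nonneg t4]
          exact t5
      · exact (hsq i hi).2.1.trans (by linarith)
      · exact (hsq i hi).2.2.trans (by linarith)
      · refine bd _ fun m hm => ?_
        show |gg0 y J J1 m| ≤ 3
        have t3 := om_le4 l1 l2 hLev (hr m hm).1 (hr m hm).2
        have t4 := g0_nonneg (om y J J1 m)
        have t5 := g0_le t3
        unfold gg0
        rcases rg_zero_or_one (zz y J) m with h | h <;> rw [h]
        · norm_num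
        · rw [one_mul, abs_of_nonneg t4]
          linarith
    refine (CertFin_sm (blk H i) G j (9 * (H * L ^ C)) hsm).trans ?_
    rw [pow_add]
    have t1 : (54000 : ℝ) ≤ L ^ 2 := by nlinarith
    have t2 : 0 ≤ (H : ℝ) * L ^ C := by positivity
    nlinarith
  · intro j i hi hi'
    fin_cases j
    · exact ((hst i hi hi').1).trans hstm
    · exact ((hst i hi hi').2).trans hstm
    · show |(kS - kT) - (kS - kT)| ≤ 1 / L ^ A
      rw [sub_self, abs_zero]
      positivity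
  · intro j
    fin_cases j
    · exact (Nat.cast_le.2 (card_le_card (badF_mono hL1 (by omega)))).trans (hb0.trans hmono)
    · exact (Nat.cast_le.2 (card_le_card (badF_mono hL1 (by omega)))).trans (hb1.trans hmono)
    · exact (Nat.cast_le.2 (card_le_card (badF_mono hL1 (by omega)))).trans (hbD.trans hmono)
  · intro j
    have t1 := badM_sum (univ : Finset (Fin 6)) N H R 3 (cY j) G g hL0 ((CertFin_abs j).trans (by linarith))
    have t2 : ((badM N H R 3 (fun m => ∑ a, cY j a * G a m) (fun i => ∑ a, cY j a * g a i)).card : ℝ) ≤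
        ∑ a : Fin 6, ((badM N H R 4 (G a) (g a)).card : ℝ) := by
      have := (card_le_card t1).trans card_biUnion_le
      exact_mod_cast this
    refine t2.trans ((sum_le_sum fun a _ => hbM a).trans ?_)
    rw [sum_const, card_univ, Fintype.card_fin, nsmul_eq_mul, pow_succ, ← div_div, mul_div_assoc', div_le_iff₀ hL0]
    push_cast
    have : 0 ≤ (N : ℝ) / L ^ A := by positivity
    nlinarith
  · intro i hi
    have := (hM (i * H) (hlo i hi) (hup' i hi)).2.2
    simp only [Fin.sum_univ_three, Fin.sum_univ_six, cY, hg]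
    simp only [Matrix.cons_val]
    unfold MM at this
    linarith

end Pool.Agent.H46.TPQ
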