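import Pool.Agent.H46.TPQ.Egm
import Pool.Agent.H91.TL.LinG
import Pool.Agent.H9.TM.Mass7
import Pool.Agent.H43.MP.Hux
import Pool.Agent.H97.VK.VkClass

/-!
# TPQ Fin9: two primes with `|x| ≤ n^θ`, `2/9 ≤ θ < 1/3`
-/

set_option autoImplicit false

namespace Pool.Agent.H46.TPQ

open Pool.Agent.H43.TS (CERT cert_res)
open Pool.Agent.H43.TP (solT)

theorem cert9 (θ : ℝ) (h1 : 2 / 9 ≤ θ) (h2 : θ < 1 / 3) : CERT θ (1 / 100) 3 :=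
  cert_fin θ (θ / 2 + 1 / 12) (by linarith) (by linarith) h2
    (Pool.Agent.H43.MP.hux_all _ (by linarith)) (Pool.Agent.H91.TL.lin Pool.Agent.H97.VK.vk_class θ h1 h2)
    (egm Pool.Agent.H97.VK.vk_class θ h1 h2) Pool.Agent.H9.TM.mass7

theorem tpq9 (θ : ℝ) (h1 : 2 / 9 ≤ θ) (h2 : θ < 1 / 3) (A : ℕ) : ∃ N0 : ℕ, ∀ N : ℕ, N0 ≤ N →
      ({n : ℕ | N < n ∧ n ≤ 2 * N ∧
        ((solT θ N n).ncard : ℝ) < 1 / 100 / 4 * (N : ℝ) ^ θ / Real.log N ^ 2}.ncard : ℝ)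
      ≤ N / Real.log N ^ A :=
  cert_res θ (1 / 100) 3 (by linarith) h2 (by norm_num) (cert9 θ h1 h2) A

end Pool.Agent.H46.TPQ
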