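import Pool.Agent.H46.TPQ.CertFin2
import Pool.Agent.H46.TPQ.Fin9
import Pool.Agent.H9.TN.Mass8

/-!
# TPQ Fin24: two primes with `|x| ≤ n^θ`, `5/24 ≤ θ < 1/3`
-/

set_option autoImplicit false

namespace Pool.Agent.H46.TPQ

open Pool.Agent.H43.TS (CERT cert_res)
open Pool.Agent.H43.TP (solT)

theorem mass8' : MASS8 := Pool.Agent.H9.TN.mass8 8 2 (by norm_num) (by norm_num) (by norm_num) (by norm_num)

theorem cert24 (θ : ℝ) (h1 : 5 / 24 ≤ θ) (h2 : θ ≤ 7 / 24) : CERT θ (1 / 100) 3 :=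
  cert_fin2 θ (θ / 2 + 1 / 12) (by linarith) (by linarith) (by linarith)
    (Pool.Agent.H43.MP.hux_all _ (by linarith))
    (Pool.Agent.H91.TL.lin_g Pool.Agent.H97.VK.vk_class θ (2082 / 10000) (2083 / 10000) (3540 / 10000) (3541 / 10000)
      (by norm_num) (by norm_num) (by norm_num) (by norm_num) (by norm_num) (by norm_num) (by linarith) (by linarith)
      (by linarith))
    (egm2 Pool.Agent.H97.VK.vk_class θ h1 h2) mass8'

theorem cert24' (θ : ℝ) (h1 : 5 / 24 ≤ θ) (h2 : θ < 1 / 3) : CERT θ (1 / 100) 3 := by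
  rcases le_total θ (7 / 24) with h | h
  · exact cert24 θ h1 h
  · exact cert9 θ (by linarith) h2

theorem tpq24 (θ : ℝ) (h1 : 5 / 24 ≤ θ) (h2 : θ < 1 / 3) (A : ℕ) : ∃ N0 : ℕ, ∀ N : ℕ, N0 ≤ N →
      ({n : ℕ | N < n ∧ n ≤ 2 * N ∧
        ((solT θ N n).ncard : ℝ) < 1 / 100 / 4 * (N : ℝ) ^ θ / Real.log N ^ 2}.ncard : ℝ)
      ≤ N / Real.log N ^ A :=
  cert_res θ (1 / 100) 3 (by linarith) h2 (by norm_num) (cert24' θ h1 h2) A

end Pool.Agent.H46.TPQ
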