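import Pool.Agent.H46.TPQ.Defs

/-!
# TPQ Star: the certificate, exact and robust form (real numbers)
-/

set_option autoImplicit false

namespace Pool.Agent.H46.TPQ

/-- the types of the numbers: `P` the indicator of the primes, `s` of the rough numbers, `k` the number of prime factors in `(z, z1]` -/
def Typ (P s : ℝ) (k : ℕ) : Prop := (P = 0 ∧ s = 0) ∨ (P = 0 ∧ s = 1) ∨ (P = 1 ∧ s = 1 ∧ k = 0)

theorem e0_zero : e0 0 = 0 := by
  unfold e0
  simp

theorem g0_zero : g0 0 = 0 := by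
  unfold g0
  simp

theorem e0_pos {k : ℕ} (hk : 1 ≤ k) : e0 k = (k : ℝ) - 1 := by
  unfold e0
  rw [if_neg (by omega)]

theorem g0_pos {k : ℕ} (hk : 1 ≤ k) : g0 k = ((k : ℝ) ^ 2 - 1) / (2 * k) := by
  unfold g0
  rw [if_neg (by omega)]

theorem e0_nonneg (k : ℕ) : 0 ≤ e0 k := by
  rcases Nat.eq_zero_or_pos k with h | h
  · rw [h, e0_zero]
  · rw [e0_pos h]
    have : (1 : ℝ) ≤ k := by exact_mod_cast h
    linarith

theorem g0_nonneg (k : ℕ) : 0 ≤ g0 k := by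
  rcases Nat.eq_zero_or_pos k with h | h
  · rw [h, g0_zero]
  · rw [g0_pos h]
    have : (1 : ℝ) ≤ k := by exact_mod_cast h
    have h2 : 0 ≤ (k : ℝ) ^ 2 - 1 := by nlinarith
    positivity

theorem e0_le {k : ℕ} (hk : k ≤ 4) : e0 k ≤ 3 := by
  rcases Nat.eq_zero_or_pos k with h | h
  · rw [h, e0_zero]
    norm_num
  · rw [e0_pos h]
    have : (k : ℝ) ≤ 4 := by exact_mod_cast hk
    linarith

theorem g0_le {k : ℕ} (hk : k ≤ 4) : g0 k ≤ 2 := by
  rcases Nat.eq_zero_or_pos k with h | h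
  · rw [h, g0_zero]
    norm_num
  · rw [g0_pos h]
    have h1 : (1 : ℝ) ≤ k := by exact_mod_cast h
    have : (k : ℝ) ≤ 4 := by exact_mod_cast hk
    rw [div_le_iff₀ (by positivity)]
    nlinarith

/-- the certificate for two rough composite numbers with `k, l ≥ 1` -/
theorem star_comp {k l : ℕ} (hk : 1 ≤ k) (hl : 1 ≤ l) :
    -((1 - (k : ℝ)) * (1 - l)) - e0 k - e0 l + g0 k * l + k * g0 l ≤ 0 := by
  rw [e0_pos hk, e0_pos hl, g0_pos hk, g0_pos hl]
  have h1 : (0 : ℝ) < k := by exact_mod_cast hk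
  have h2 : (0 : ℝ) < l := by exact_mod_cast hl
  have h3 : -((1 - (k : ℝ)) * (1 - l)) - (k - 1) - (l - 1) + ((k : ℝ) ^ 2 - 1) / (2 * k) * l
      + k * (((l : ℝ) ^ 2 - 1) / (2 * l)) = -(((k : ℝ) - l) ^ 2 / (2 * k * l)) := by
    field_simp
    ring
  rw [h3]
  have : 0 ≤ ((k : ℝ) - l) ^ 2 / (2 * k * l) := by positivity
  linarith

/-- the exact certificate -/
theorem star (P s P' s' : ℝ) (k k' : ℕ) (h : Typ P s k) (h' : Typ P' s' k') :
    P * (s' * (1 - k')) + (s * (1 - k)) * P' - (s * (1 - k)) * (s' * (1 - k')) - (s * e0 k) * s' - s * (s' * e0 k')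
      + (s * g0 k) * (s' * k') + (s * k) * (s' * g0 k') ≤ P * P' := by
  have ek := e0_nonneg k
  have ek' := e0_nonneg k'
  rcases h with ⟨rfl, rfl⟩ | ⟨rfl, rfl⟩ | ⟨rfl, rfl, rfl⟩ <;>
    rcases h' with ⟨rfl, rfl⟩ | ⟨rfl, rfl⟩ | ⟨rfl, rfl, rfl⟩
  · norm_num
  · norm_num
  · norm_num
  · norm_num
  · rcases Nat.eq_zero_or_pos k with h1 | h1 <;> rcases Nat.eq_zero_or_pos k' with h2 | h2
    · rw [h1, h2, e0_zero, g0_zero]
      norm_num
    · rw [h1, e0_zero, g0_zero, e0_pos h2]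
      push_cast
      nlinarith
    · rw [h2, e0_zero, g0_zero, e0_pos h1]
      push_cast
      nlinarith
    · have := star_comp h1 h2
      linarith
  · rw [e0_zero, g0_zero]
    push_cast
    nlinarith
  · norm_num
  · rw [e0_zero, g0_zero]
    push_cast
    nlinarith
  · rw [e0_zero, g0_zero]
    norm_num

/-- the robust certificate -/
theorem star_rob (P s P' s' : ℝ) (k k' : ℕ) (h : Typ P s k) (h' : Typ P' s' k') (hk : k ≤ 4) (hk' : k' ≤ 4)
    (a o D a' o' D' : ℝ) (ha1 : s ≤ a) (ha2 : a ≤ s + D) (ho : |o - k * s| ≤ 4 * D)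
    (ha1' : s' ≤ a') (ha2' : a' ≤ s' + D') (ho' : |o' - k' * s'| ≤ 4 * D') :
    P * (a' - o') + (a - o) * P' - (a - o) * (a' - o') - (s * e0 k) * a' - a * (s' * e0 k')
      + (s * g0 k) * o' + o * (s' * g0 k') - 30 * (a * D' + D * a' + D * D') ≤ P * P' := by
  have h0 := star P s P' s' k k' h h'
  have hD : 0 ≤ D := by linarith
  have hD' : 0 ≤ D' := by linarith
  have hs : 0 ≤ s ∧ s ≤ 1 ∧ 0 ≤ P ∧ P ≤ s := by
    rcases h with ⟨rfl, rfl⟩ | ⟨rfl, rfl⟩ | ⟨rfl, rfl, rfl⟩ <;> norm_num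
  have hs' : 0 ≤ s' ∧ s' ≤ 1 ∧ 0 ≤ P' ∧ P' ≤ s' := by
    rcases h' with ⟨rfl, rfl⟩ | ⟨rfl, rfl⟩ | ⟨rfl, rfl, rfl⟩ <;> norm_num
  obtain ⟨s0, s1, p0, p1⟩ := hs
  obtain ⟨s0', s1', p0', p1'⟩ := hs'
  have kr : (0 : ℝ) ≤ k := Nat.cast_nonneg k
  have kr' : (0 : ℝ) ≤ k' := Nat.cast_nonneg k'
  have k4 : (k : ℝ) ≤ 4 := by exact_mod_cast hk
  have k4' : (k' : ℝ) ≤ 4 := by exact_mod_cast hk'
  have a0 : 0 ≤ a := by linarith
  have a0' : 0 ≤ a' := by linarith
  obtain ⟨φ, hφ⟩ : ∃ φ, φ = (a - s) - (o - k * s) := ⟨_, rfl⟩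
  obtain ⟨φ', hφ'⟩ : ∃ φ', φ' = (a' - s') - (o' - k' * s') := ⟨_, rfl⟩
  obtain ⟨η, hη⟩ : ∃ η, η = o - k * s := ⟨_, rfl⟩
  obtain ⟨η', hη'⟩ : ∃ η', η' = o' - k' * s' := ⟨_, rfl⟩
  have ho2 := abs_le.1 ho
  have ho2' := abs_le.1 ho'
  have φ1 : |φ| ≤ 5 * D := by
    rw [abs_le]
    constructor <;> linarith [ho2.1, ho2.2]
  have φ1' : |φ'| ≤ 5 * D' := by
    rw [abs_le]
    constructor <;> linarith [ho2'.1, ho2'.2]
  have eF : a - o = s * (1 - k) + φ := by rw [hφ]; ring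
  have eF' : a' - o' = s' * (1 - k') + φ' := by rw [hφ']; ring
  have eo : o = s * k + η := by rw [hη]; ring
  have eo' : o' = s' * k' + η' := by rw [hη']; ring
  -- the bound of `s (1 - k)`
  have f1 : |s * (1 - k)| ≤ 3 * a := by
    rw [abs_le]
    constructor
    · nlinarith
    · nlinarith
  have f1' : |s' * (1 - (k' : ℝ))| ≤ 3 * a' := by
    rw [abs_le]
    constructor
    · nlinarith
    · nlinarith
  -- the errors
  have t1 : P * φ' ≤ 5 * (a * D') := by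
    have u1 : P * φ' ≤ P * (5 * D') := mul_le_mul_of_nonneg_left ((le_abs_self _).trans φ1') p0
    have u2 : P * (5 * D') ≤ a * (5 * D') := mul_le_mul_of_nonneg_right (by linarith) (by linarith)
    linarith
  have t1' : φ * P' ≤ 5 * (D * a') := by
    have u1 : φ * P' ≤ (5 * D) * P' := mul_le_mul_of_nonneg_right ((le_abs_self _).trans φ1) p0'
    have u2 : (5 * D) * P' ≤ (5 * D) * a' := mul_le_mul_of_nonneg_left (by linarith) (by linarith)
    linarith
  have t2 : -(s * (1 - k) * φ') ≤ 15 * (a * D') := by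
    have u1 : |s * (1 - k) * φ'| ≤ (3 * a) * (5 * D') := by
      rw [abs_mul]
      exact mul_le_mul f1 φ1' (abs_nonneg _) (by linarith)
    have u2 := neg_abs_le (s * (1 - k) * φ')
    linarith
  have t2' : -(φ * (s' * (1 - k'))) ≤ 15 * (D * a') := by
    have u1 : |φ * (s' * (1 - k'))| ≤ (5 * D) * (3 * a') := by
      rw [abs_mul]
      exact mul_le_mul φ1 f1' (abs_nonneg _) (by linarith)
    have u2 := neg_abs_le (φ * (s' * (1 - k')))
    linarith
  have t3 : -(φ * φ') ≤ 25 * (D * D') := by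
    have u1 : |φ * φ'| ≤ (5 * D) * (5 * D') := by
      rw [abs_mul]
      exact mul_le_mul φ1 φ1' (abs_nonneg _) (by linarith)
    have u2 := neg_abs_le (φ * φ')
    linarith
  have ek := e0_nonneg k
  have ek' := e0_nonneg k'
  have gk := g0_nonneg k
  have gk' := g0_nonneg k'
  have gl := g0_le hk
  have gl' := g0_le hk'
  have t4 : -((s * e0 k) * a') ≤ -((s * e0 k) * s') := by
    have := mul_le_mul_of_nonneg_left ha1' (mul_nonneg s0 ek)
    linarith
  have t4' : -(a * (s' * e0 k')) ≤ -(s * (s' * e0 k')) := by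
    have := mul_le_mul_of_nonneg_right ha1 (mul_nonneg s0' ek')
    linarith
  have g1 : s * g0 k ≤ 2 * a := by nlinarith
  have g1' : s' * g0 k' ≤ 2 * a' := by nlinarith
  have t5 : (s * g0 k) * η' ≤ 8 * (a * D') := by
    have u1 : (s * g0 k) * η' ≤ (s * g0 k) * (4 * D') :=
      mul_le_mul_of_nonneg_left (by rw [hη']; exact ho2'.2) (mul_nonneg s0 gk)
    have u2 : (s * g0 k) * (4 * D') ≤ (2 * a) * (4 * D') := mul_le_mul_of_nonneg_right g1 (by linarith)
    linarith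
  have t5' : η * (s' * g0 k') ≤ 8 * (D * a') := by
    have u1 : η * (s' * g0 k') ≤ (4 * D) * (s' * g0 k') :=
      mul_le_mul_of_nonneg_right (by rw [hη]; exact ho2.2) (mul_nonneg s0' gk')
    have u2 : (4 * D) * (s' * g0 k') ≤ (4 * D) * (2 * a') := mul_le_mul_of_nonneg_left g1' (by linarith)
    linarith
  have z1 : 0 ≤ a * D' := mul_nonneg a0 hD'
  have z2 : 0 ≤ D * a' := mul_nonneg hD a0'
  have z3 : 0 ≤ D * D' := mul_nonneg hD hD'
  -- the identity
  have e1 : P * (a' - o') = P * (s' * (1 - k')) + P * φ' := by rw [eF']; ring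
  have e2 : (a - o) * P' = (s * (1 - k)) * P' + φ * P' := by rw [eF]; ring
  have e3 : (a - o) * (a' - o') = (s * (1 - k)) * (s' * (1 - k')) + s * (1 - k) * φ' + φ * (s' * (1 - k')) + φ * φ' := by
    rw [eF, eF']; ring
  have e4 : (s * g0 k) * o' = (s * g0 k) * (s' * k') + (s * g0 k) * η' := by rw [eo']; ring
  have e5 : o * (s' * g0 k') = (s * k) * (s' * g0 k') + η * (s' * g0 k') := by rw [eo]; ring
  rw [e1, e2, e3, e4, e5]
  linarith

end Pool.Agent.H46.TPQ
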